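import Mathlib

set_option autoImplicit false

open Set Filter Topology MeasureTheory

namespace Pool.Agent.Results.MP_75b936_an.FormalIntegration

/-- Formal rational combinations of a family of generators indexed by `ι`: expressions built from
the generators by additions, subtractions, multiplications and divisions. -/
inductive RExp (ι : Type) : Type
  | gen : ι → RExp ι
  | add : RExp ι → RExp ι → RExp ι
  | sub : RExp ι → RExp ι → RExp ι
  | mul : RExp ι → RExp ι → RExp ι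
  | div : RExp ι → RExp ι → RExp ι
  deriving Countable

/-- The value at `x` of a rational combination of the functions `g i`. -/
noncomputable def RExp.eval {ι : Type} (g : ι → ℝ → ℝ) : RExp ι → ℝ → ℝ
  | .gen i, x => g i x
  | .add a b, x => a.eval g x + b.eval g x
  | .sub a b, x => a.eval g x - b.eval g x
  | .mul a b, x => a.eval g x * b.eval g x
  | .div a b, x => a.eval g x / b.eval g x

/-- None of the denominators used in the rational combination vanishes at `x`. -/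
def RExp.Defined {ι : Type} (g : ι → ℝ → ℝ) : RExp ι → ℝ → Prop
  | .gen _, _ => True
  | .add a b, x => a.Defined g x ∧ b.Defined g x
  | .sub a b, x => a.Defined g x ∧ b.Defined g x
  | .mul a b, x => a.Defined g x ∧ b.Defined g x
  | .div a b, x => a.Defined g x ∧ b.Defined g x ∧ b.eval g x ≠ 0

/-- The superposition `f_{i₁} ∘ f_{i₂} ∘ ⋯ ∘ f_{iₖ}` of a word `[i₁, …, iₖ]`. -/
def comp {n : ℕ} (f : Fin n → ℝ → ℝ) : List (Fin n) → ℝ → ℝ
  | [], x => x
  | i :: w, x => f i (comp f w x)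

/-- Nonempty words, indexing the superpositions of `f₁, …, fₙ` (words of length one are the `f_i`
themselves). -/
abbrev Word (n : ℕ) : Type := {w : List (Fin n) // w ≠ []}

/-! ### numerators and denominators -/

noncomputable def nd {ι : Type} : RExp ι → (ι → ℝ) → ℝ × ℝ
  | .gen i, v => (v i, 1)
  | .add a b, v => ((nd a v).1 * (nd b v).2 + (nd b v).1 * (nd a v).2, (nd a v).2 * (nd b v).2)
  | .sub a b, v => ((nd a v).1 * (nd b v).2 - (nd b v).1 * (nd a v).2, (nd a v).2 * (nd b v).2)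
  | .mul a b, v => ((nd a v).1 * (nd b v).1, (nd a v).2 * (nd b v).2)
  | .div a b, v => ((nd a v).1 * ((nd b v).2 * (nd b v).2), (nd a v).2 * ((nd b v).2 * (nd b v).1))

lemma nd_spec {ι : Type} (g : ι → ℝ → ℝ) (x : ℝ) (e : RExp ι) :
    ((nd e (fun i => g i x)).2 ≠ 0 ↔ e.Defined g x) ∧
    (e.Defined g x → e.eval g x = (nd e (fun i => g i x)).1 / (nd e (fun i => g i x)).2) := by
  induction e with
  | gen i => simp [nd, RExp.Defined, RExp.eval]
  | add a b iha ihb =>
    have h1 : ((nd (RExp.add a b) (fun i => g i x)).2 ≠ 0 ↔ (RExp.add a b).Defined g x) := by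
      simp only [nd, RExp.Defined, mul_ne_zero_iff, iha.1, ihb.1]
    refine ⟨h1, fun h => ?_⟩
    have ha := iha.1.mpr h.1
    have hb := ihb.1.mpr h.2
    simp only [nd, RExp.eval, iha.2 h.1, ihb.2 h.2]
    field_simp
  | sub a b iha ihb =>
    have h1 : ((nd (RExp.sub a b) (fun i => g i x)).2 ≠ 0 ↔ (RExp.sub a b).Defined g x) := by
      simp only [nd, RExp.Defined, mul_ne_zero_iff, iha.1, ihb.1]
    refine ⟨h1, fun h => ?_⟩
    have ha := iha.1.mpr h.1
    have hb := ihb.1.mpr h.2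
    simp only [nd, RExp.eval, iha.2 h.1, ihb.2 h.2]
    field_simp
  | mul a b iha ihb =>
    have h1 : ((nd (RExp.mul a b) (fun i => g i x)).2 ≠ 0 ↔ (RExp.mul a b).Defined g x) := by
      simp only [nd, RExp.Defined, mul_ne_zero_iff, iha.1, ihb.1]
    refine ⟨h1, fun h => ?_⟩
    have ha := iha.1.mpr h.1
    have hb := ihb.1.mpr h.2
    simp only [nd, RExp.eval, iha.2 h.1, ihb.2 h.2]
    field_simp
  | div a b iha ihb =>
    have h1 : ((nd (RExp.div a b) (fun i => g i x)).2 ≠ 0 ↔ (RExp.div a b).Defined g x) := by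
      simp only [nd, RExp.Defined, mul_ne_zero_iff, iha.1, ihb.1]
      constructor
      · rintro ⟨h1, h2, h3⟩
        refine ⟨h1, h2, ?_⟩
        rw [ihb.2 h2]
        exact div_ne_zero h3 (ihb.1.mpr h2)
      · rintro ⟨h1, h2, h3⟩
        refine ⟨h1, h2, ?_⟩
        rw [ihb.2 h2] at h3
        exact fun h0 => h3 (by rw [h0, zero_div])
    refine ⟨h1, fun h => ?_⟩
    have ha := iha.1.mpr h.1
    have hb := ihb.1.mpr h.2.1
    have hnb : (nd b (fun i => g i x)).1 ≠ 0 := by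
      have h3 := h.2.2
      rw [ihb.2 h.2.1] at h3
      exact fun h0 => h3 (by rw [h0, zero_div])
    simp only [nd, RExp.eval, iha.2 h.1, ihb.2 h.2.1]
    field_simp

/-- polynomial growth and Lipschitz control -/
def Pol {ι : Type} (f : (ι → ℝ) → ℝ) : Prop :=
  ∃ (C : ℝ) (n : ℕ), 1 ≤ C ∧ ∀ (X δ : ℝ) (v v' : ι → ℝ), 1 ≤ X → 0 ≤ δ → (∀ i, |v i| ≤ X) → (∀ i, |v' i| ≤ X) →
    (∀ i, |v i - v' i| ≤ δ) → |f v| ≤ C * X ^ n ∧ |f v - f v'| ≤ C * X ^ n * δ

lemma Pol.mono {C C' X : ℝ} {n n' : ℕ} (hC0 : 1 ≤ C) (hC : C ≤ C') (hn : n ≤ n') (hX : 1 ≤ X) : C * X ^ n ≤ C' * X ^ n' := by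
  have h1 : X ^ n ≤ X ^ n' := pow_le_pow_right₀ hX hn
  have h2 : 0 < X ^ n := by positivity
  exact mul_le_mul hC h1 h2.le (by linarith)

lemma pol_one {ι : Type} : Pol (fun _ : ι → ℝ => (1:ℝ)) := by
  refine ⟨1, 0, le_refl _, fun X δ v v' _ hδ _ _ _ => ?_⟩
  simp [hδ]

lemma pol_proj {ι : Type} (i : ι) : Pol (fun v : ι → ℝ => v i) := by
  refine ⟨1, 1, le_refl _, fun X δ v v' hX hδ hv _ hd => ?_⟩
  refine ⟨by simpa using hv i, ?_⟩
  have := hd i
  simp only [pow_one, one_mul]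
  nlinarith

lemma pol_mul {ι : Type} {f g : (ι → ℝ) → ℝ} (hf : Pol f) (hg : Pol g) : Pol (fun v => f v * g v) := by
  obtain ⟨C1, n1, h1, H1⟩ := hf
  obtain ⟨C2, n2, h2, H2⟩ := hg
  refine ⟨2 * (C1 * C2), n1 + n2, by nlinarith, fun X δ v v' hX hδ hv hv' hd => ?_⟩
  obtain ⟨a1, a2⟩ := H1 X δ v v' hX hδ hv hv' hd
  obtain ⟨b1, b2⟩ := H2 X δ v v' hX hδ hv hv' hd
  obtain ⟨b3, _⟩ := H2 X δ v' v hX hδ hv' hv (fun i => by rw [abs_sub_comm]; exact hd i)
  have e1 : 0 ≤ C1 * X ^ n1 := by positivity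
  have e2 : 0 ≤ C2 * X ^ n2 := by positivity
  constructor
  · rw [abs_mul]
    calc |f v| * |g v| ≤ (C1 * X ^ n1) * (C2 * X ^ n2) := mul_le_mul a1 b1 (abs_nonneg _) e1
      _ = C1 * C2 * X ^ (n1 + n2) := by ring
      _ ≤ 2 * (C1 * C2) * X ^ (n1 + n2) := by
          have : 0 ≤ C1 * C2 * X ^ (n1 + n2) := by positivity
          linarith
  · have : f v * g v - f v' * g v' = f v * (g v - g v') + g v' * (f v - f v') := by ring
    rw [this]
    calc |f v * (g v - g v') + g v' * (f v - f v')| ≤ |f v * (g v - g v')| + |g v' * (f v - f v')| := abs_add_le _ _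
      _ = |f v| * |g v - g v'| + |g v'| * |f v - f v'| := by rw [abs_mul, abs_mul]
      _ ≤ (C1 * X ^ n1) * (C2 * X ^ n2 * δ) + (C2 * X ^ n2) * (C1 * X ^ n1 * δ) :=
          add_le_add (mul_le_mul a1 b2 (abs_nonneg _) e1) (mul_le_mul b3 a2 (abs_nonneg _) e2)
      _ = 2 * (C1 * C2) * X ^ (n1 + n2) * δ := by ring

lemma pol_add {ι : Type} {f g : (ι → ℝ) → ℝ} (hf : Pol f) (hg : Pol g) : Pol (fun v => f v + g v) := by
  obtain ⟨C1, n1, h1, H1⟩ := hf
  obtain ⟨C2, n2, h2, H2⟩ := hg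
  refine ⟨C1 + C2, n1 + n2, by linarith, fun X δ v v' hX hδ hv hv' hd => ?_⟩
  obtain ⟨a1, a2⟩ := H1 X δ v v' hX hδ hv hv' hd
  obtain ⟨b1, b2⟩ := H2 X δ v v' hX hδ hv hv' hd
  have m1 : C1 * X ^ n1 ≤ C1 * X ^ (n1 + n2) := Pol.mono h1 le_rfl (by omega) hX
  have m2 : C2 * X ^ n2 ≤ C2 * X ^ (n1 + n2) := Pol.mono h2 le_rfl (by omega) hX
  constructor
  · calc |f v + g v| ≤ |f v| + |g v| := abs_add_le _ _
      _ ≤ C1 * X ^ (n1 + n2) + C2 * X ^ (n1 + n2) := by linarith
      _ = _ := by ring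
  · have : f v + g v - (f v' + g v') = (f v - f v') + (g v - g v') := by ring
    rw [this]
    have m1' := mul_le_mul_of_nonneg_right m1 hδ
    have m2' := mul_le_mul_of_nonneg_right m2 hδ
    calc _ ≤ |f v - f v'| + |g v - g v'| := abs_add_le _ _
      _ ≤ C1 * X ^ (n1 + n2) * δ + C2 * X ^ (n1 + n2) * δ := by linarith
      _ = _ := by ring

lemma pol_neg {ι : Type} {f : (ι → ℝ) → ℝ} (hf : Pol f) : Pol (fun v => - f v) := by
  obtain ⟨C1, n1, h1, H1⟩ := hf
  refine ⟨C1, n1, h1, fun X δ v v' hX hδ hv hv' hd => ?_⟩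
  obtain ⟨a1, a2⟩ := H1 X δ v v' hX hδ hv hv' hd
  refine ⟨by rw [abs_neg]; exact a1, ?_⟩
  have : -f v - -f v' = -(f v - f v') := by ring
  rw [this, abs_neg]; exact a2

lemma pol_nd {ι : Type} (e : RExp ι) : Pol (fun v => (nd e v).1) ∧ Pol (fun v => (nd e v).2) := by
  induction e with
  | gen i => exact ⟨pol_proj i, pol_one⟩
  | add a b iha ihb =>
    exact ⟨pol_add (pol_mul iha.1 ihb.2) (pol_mul ihb.1 iha.2), pol_mul iha.2 ihb.2⟩
  | sub a b iha ihb =>
    refine ⟨?_, pol_mul iha.2 ihb.2⟩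
    have := pol_add (pol_mul iha.1 ihb.2) (pol_neg (pol_mul ihb.1 iha.2))
    simpa only [nd, sub_eq_add_neg] using this
  | mul a b iha ihb =>
    exact ⟨pol_mul iha.1 ihb.1, pol_mul iha.2 ihb.2⟩
  | div a b iha ihb =>
    exact ⟨pol_mul iha.1 (pol_mul ihb.2 ihb.2), pol_mul iha.2 (pol_mul ihb.2 ihb.1)⟩

lemma nd_cont {ι : Type} (e : RExp ι) : Continuous (fun v : ι → ℝ => nd e v) := by
  induction e with
  | gen i => simp only [nd]; fun_prop
  | add a b iha ihb => simp only [nd]; fun_prop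
  | sub a b iha ihb => simp only [nd]; fun_prop
  | mul a b iha ihb => simp only [nd]; fun_prop
  | div a b iha ihb => simp only [nd]; fun_prop

/-- joint bound for numerator and denominator -/
lemma bound_exists {ι : Type} (e : RExp ι) : ∃ p : ℝ × ℕ, 1 ≤ p.1 ∧
    ∀ (X δ : ℝ) (v v' : ι → ℝ), 1 ≤ X → 0 ≤ δ → (∀ i, |v i| ≤ X) → (∀ i, |v' i| ≤ X) →
    (∀ i, |v i - v' i| ≤ δ) → |(nd e v).1| ≤ p.1 * X ^ p.2 ∧ |(nd e v).2| ≤ p.1 * X ^ p.2 ∧
      |(nd e v).1 - (nd e v').1| ≤ p.1 * X ^ p.2 * δ ∧ |(nd e v).2 - (nd e v').2| ≤ p.1 * X ^ p.2 * δ := by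
  obtain ⟨⟨C1, n1, h1, H1⟩, ⟨C2, n2, h2, H2⟩⟩ := pol_nd e
  refine ⟨(C1 + C2, n1 + n2), by simp only; linarith, fun X δ v v' hX hδ hv hv' hd => ?_⟩
  obtain ⟨a1, a2⟩ := H1 X δ v v' hX hδ hv hv' hd
  obtain ⟨b1, b2⟩ := H2 X δ v v' hX hδ hv hv' hd
  have m1 : C1 * X ^ n1 ≤ (C1 + C2) * X ^ (n1 + n2) := Pol.mono h1 (by linarith) (by omega) hX
  have m2 : C2 * X ^ n2 ≤ (C1 + C2) * X ^ (n1 + n2) := Pol.mono h2 (by linarith) (by omega) hX
  have m1' := mul_le_mul_of_nonneg_right m1 hδ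
  have m2' := mul_le_mul_of_nonneg_right m2 hδ
  exact ⟨a1.trans m1, b1.trans m2, a2.trans m1', b2.trans m2'⟩


/-! ### the coding maps -/

noncomputable def alpha (x : ℝ) : ℝ := 1/2 + Real.arctan x / Real.pi
noncomputable def beta (t : ℝ) : ℝ := Real.tan (Real.pi * (t - 1/2))

lemma alpha_cont : Continuous alpha := by
  unfold alpha
  exact continuous_const.add (Real.continuous_arctan.div_const _)

lemma alpha_pos (x : ℝ) : 0 < alpha x := by
  unfold alpha
  have h1 := Real.neg_pi_div_two_lt_arctan x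
  have h2 := Real.pi_pos
  have : -(1/2) < Real.arctan x / Real.pi := by
    rw [lt_div_iff₀ h2]; linarith
  linarith

lemma alpha_lt (x : ℝ) : alpha x < 1 := by
  unfold alpha
  have h1 := Real.arctan_lt_pi_div_two x
  have h2 := Real.pi_pos
  have : Real.arctan x / Real.pi < 1/2 := by
    rw [div_lt_iff₀ h2]; linarith
  linarith

lemma beta_alpha (x : ℝ) : beta (alpha x) = x := by
  unfold beta alpha
  have : Real.pi * (1 / 2 + Real.arctan x / Real.pi - 1 / 2) = Real.arctan x := by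
    field_simp
    ring
  rw [this, Real.tan_arctan]

lemma alpha_beta (t : ℝ) (h0 : 0 < t) (h1 : t < 1) : alpha (beta t) = t := by
  unfold beta alpha
  have hpi := Real.pi_pos
  rw [Real.arctan_tan (by nlinarith) (by nlinarith)]
  field_simp
  ring

lemma beta_contAt (t : ℝ) (h0 : 0 < t) (h1 : t < 1) : ContinuousAt beta t := by
  unfold beta
  have hpi := Real.pi_pos
  have hc : Real.cos (Real.pi * (t - 1/2)) ≠ 0 := by
    apply ne_of_gt
    exact Real.cos_pos_of_mem_Ioo ⟨by nlinarith, by nlinarith⟩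
  exact ContinuousAt.comp (f := fun t => Real.pi * (t - 1/2)) (Real.continuousAt_tan.mpr hc) (by fun_prop)

/-! ### the functionals -/

noncomputable def V (l : ℝ → ℝ) (x : ℝ) : Fin 3 → ℝ := ![alpha x, x + 1, l x]

noncomputable def Nn (e : RExp (Fin 3)) (l : ℝ → ℝ) (x : ℝ) : ℝ := (nd e (V l x)).1
noncomputable def Dd (e : RExp (Fin 3)) (l : ℝ → ℝ) (x : ℝ) : ℝ := (nd e (V l x)).2

noncomputable def C (e : RExp (Fin 3)) : ℝ := (bound_exists e).choose.1
noncomputable def dg (e : RExp (Fin 3)) : ℕ := (bound_exists e).choose.2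

noncomputable def mm (e : RExp (Fin 3)) (q : ℝ) (l : ℝ → ℝ) (x : ℝ) : ℝ :=
  sInf ((fun t : ℝ => min 1 |Dd e l (q + t * (x - q))|) '' Icc 0 1)
noncomputable def FF (e : RExp (Fin 3)) (q : ℝ) (l : ℝ → ℝ) (x : ℝ) : ℝ := ∫ s in q..x, Nn e l s / Dd e l s
noncomputable def XX (q x : ℝ) : ℝ := 2 + |q| + |x|
noncomputable def MM (e : RExp (Fin 3)) (q x : ℝ) : ℝ := C e * XX q x ^ dg e
noncomputable def WW (e : RExp (Fin 3)) (q x : ℝ) : ℝ := alpha x * (1 - alpha x) / (8 * (MM e q x)^2 * XX q x)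
noncomputable def gg (b : Bool) (F : ℝ) : ℝ := if b then F / (1+F^2) else 1/(1+F^2)
noncomputable def Phi (e : RExp (Fin 3)) (q : ℝ) (b : Bool) (l : ℝ → ℝ) (x : ℝ) : ℝ :=
  WW e q x * (mm e q l x)^2 * gg b (FF e q l x)

lemma C_ge (e : RExp (Fin 3)) : 1 ≤ C e := (bound_exists e).choose_spec.1

lemma XX_ge (q x : ℝ) : 2 ≤ XX q x := by
  unfold XX
  have := abs_nonneg q
  have := abs_nonneg x
  linarith

lemma MM_ge (e : RExp (Fin 3)) (q x : ℝ) : 1 ≤ MM e q x := by
  unfold MM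
  have h1 := C_ge e
  have h2 : 1 ≤ XX q x ^ dg e := one_le_pow₀ (by linarith [XX_ge q x])
  nlinarith

lemma WW_pos (e : RExp (Fin 3)) (q x : ℝ) : 0 < WW e q x := by
  unfold WW
  have h1 := alpha_pos x
  have h2 := alpha_lt x
  have h3 := MM_ge e q x
  have h4 := XX_ge q x
  have : 0 < alpha x * (1 - alpha x) := mul_pos h1 (by linarith)
  positivity

lemma WW_mul (e : RExp (Fin 3)) (q x : ℝ) : 8 * WW e q x * (MM e q x)^2 * XX q x = alpha x * (1 - alpha x) := by
  unfold WW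
  have h3 := MM_ge e q x
  have h4 := XX_ge q x
  field_simp

lemma WW_le (e : RExp (Fin 3)) (q x : ℝ) : WW e q x ≤ alpha x * (1 - alpha x) := by
  rw [← WW_mul e q x]
  have h3 := MM_ge e q x
  have h4 := XX_ge q x
  have h5 := WW_pos e q x
  have h6 : 1 ≤ (MM e q x)^2 * XX q x := by nlinarith [mul_self_nonneg (MM e q x)]
  nlinarith

lemma V_le (l : ℝ → ℝ) (hl : ∀ x, |l x| ≤ 1) (q x s : ℝ) (hs : s ∈ uIcc q x) (i : Fin 3) : |V l s i| ≤ XX q x := by
  have hs' : |s| ≤ |q| + |x| := by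
    rw [mem_uIcc] at hs
    have h1 := abs_le.mp (le_refl |q|)
    have h2 := abs_le.mp (le_refl |x|)
    have := abs_nonneg q
    have := abs_nonneg x
    rw [abs_le]
    rcases hs with h | h <;> constructor <;> linarith [h.1, h.2, h1.1, h1.2, h2.1, h2.2]
  have h0 := abs_nonneg q
  have h1 := abs_nonneg x
  unfold XX
  fin_cases i
  · show |alpha s| ≤ _
    rw [abs_of_pos (alpha_pos s)]
    linarith [alpha_lt s]
  · show |s + 1| ≤ _
    calc |s + 1| ≤ |s| + |1| := abs_add_le _ _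
      _ ≤ _ := by rw [abs_one]; linarith
  · show |l s| ≤ _
    linarith [hl s]

lemma nd_bounds (e : RExp (Fin 3)) (l l' : ℝ → ℝ) (hl : ∀ x, |l x| ≤ 1) (hl' : ∀ x, |l' x| ≤ 1) (δ : ℝ) (hδ : 0 ≤ δ)
    (hd : ∀ x, |l x - l' x| ≤ δ) (q x s : ℝ) (hs : s ∈ uIcc q x) :
    |Nn e l s| ≤ MM e q x ∧ |Dd e l s| ≤ MM e q x ∧ |Nn e l s - Nn e l' s| ≤ MM e q x * δ ∧
      |Dd e l s - Dd e l' s| ≤ MM e q x * δ := by
  refine (bound_exists e).choose_spec.2 (XX q x) δ (V l s) (V l' s) (by linarith [XX_ge q x]) hδ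
    (V_le l hl q x s hs) (V_le l' hl' q x s hs) (fun i => ?_)
  fin_cases i
  · simpa [V] using hδ
  · simpa [V] using hδ
  · exact hd s

lemma V_cont (l : ℝ → ℝ) (hl : Continuous l) : Continuous (V l) := by
  refine continuous_pi fun i => ?_
  fin_cases i
  · exact alpha_cont
  · exact continuous_id.add continuous_const
  · exact hl

lemma Nn_cont (e : RExp (Fin 3)) (l : ℝ → ℝ) (hl : Continuous l) : Continuous (Nn e l) :=
  continuous_fst.comp ((nd_cont e).comp (V_cont l hl))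
lemma Dd_cont (e : RExp (Fin 3)) (l : ℝ → ℝ) (hl : Continuous l) : Continuous (Dd e l) :=
  continuous_snd.comp ((nd_cont e).comp (V_cont l hl))

lemma seg_mem (q x t : ℝ) (ht : t ∈ Icc (0:ℝ) 1) : q + t * (x - q) ∈ uIcc q x := by
  rw [mem_uIcc]
  rcases le_total q x with h | h
  · left; constructor <;> nlinarith [ht.1, ht.2]
  · right; constructor <;> nlinarith [ht.1, ht.2]

lemma seg_exists (q x s : ℝ) (hs : s ∈ uIcc q x) : ∃ t ∈ Icc (0:ℝ) 1, q + t * (x - q) = s := by
  rcases eq_or_ne q x with h | h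
  · subst h
    simp at hs
    exact ⟨0, by simp, by simp [hs]⟩
  · have hxq : x - q ≠ 0 := sub_ne_zero.mpr h.symm
    refine ⟨(s - q) / (x - q), ?_, by field_simp; ring⟩
    rw [mem_uIcc] at hs
    rcases hs with hs | hs
    · have : 0 < x - q := lt_of_le_of_ne (by linarith [hs.1, hs.2]) hxq.symm
      exact ⟨div_nonneg (by linarith [hs.1]) this.le, by rw [div_le_one this]; linarith [hs.2]⟩
    · have : x - q < 0 := lt_of_le_of_ne (by linarith [hs.1, hs.2]) hxq
      refine ⟨div_nonneg_of_nonpos (by linarith [hs.2]) this.le, ?_⟩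
      rw [div_le_one_iff]
      right; right
      exact ⟨this, by linarith [hs.1]⟩

lemma img_bdd (e : RExp (Fin 3)) (q : ℝ) (l : ℝ → ℝ) (x : ℝ) :
    BddBelow ((fun t : ℝ => min 1 |Dd e l (q + t * (x - q))|) '' Icc 0 1) := by
  refine ⟨0, ?_⟩
  rintro _ ⟨t, _, rfl⟩
  exact le_min zero_le_one (abs_nonneg _)

lemma img_ne (e : RExp (Fin 3)) (q : ℝ) (l : ℝ → ℝ) (x : ℝ) :
    ((fun t : ℝ => min 1 |Dd e l (q + t * (x - q))|) '' Icc 0 1).Nonempty :=
  ⟨_, ⟨0, by simp, rfl⟩⟩

lemma mm_nonneg (e : RExp (Fin 3)) (q : ℝ) (l : ℝ → ℝ) (x : ℝ) : 0 ≤ mm e q l x := by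
  apply le_csInf (img_ne e q l x)
  rintro _ ⟨t, _, rfl⟩
  exact le_min zero_le_one (abs_nonneg _)

lemma mm_le (e : RExp (Fin 3)) (q : ℝ) (l : ℝ → ℝ) (x s : ℝ) (hs : s ∈ uIcc q x) : mm e q l x ≤ min 1 |Dd e l s| := by
  obtain ⟨t, ht, rfl⟩ := seg_exists q x s hs
  exact csInf_le (img_bdd e q l x) ⟨t, ht, rfl⟩

lemma mm_le_one (e : RExp (Fin 3)) (q : ℝ) (l : ℝ → ℝ) (x : ℝ) : mm e q l x ≤ 1 :=
  (mm_le e q l x q left_mem_uIcc).trans (min_le_left _ _)

lemma mm_le_D (e : RExp (Fin 3)) (q : ℝ) (l : ℝ → ℝ) (x s : ℝ) (hs : s ∈ uIcc q x) : mm e q l x ≤ |Dd e l s| :=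
  (mm_le e q l x s hs).trans (min_le_right _ _)

lemma seg_cont (e : RExp (Fin 3)) (q : ℝ) (l : ℝ → ℝ) (hl : Continuous l) :
    Continuous (fun p : ℝ × ℝ => min 1 |Dd e l (q + p.2 * (p.1 - q))|) := by
  have := Dd_cont e l hl
  fun_prop

lemma mm_cont (e : RExp (Fin 3)) (q : ℝ) (l : ℝ → ℝ) (hl : Continuous l) : Continuous (mm e q l) :=
  isCompact_Icc.continuous_sInf (f := fun x t : ℝ => min 1 |Dd e l (q + t * (x - q))|) (seg_cont e q l hl)

lemma mm_pos (e : RExp (Fin 3)) (q : ℝ) (l : ℝ → ℝ) (hl : Continuous l) (x : ℝ)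
    (h : ∀ s ∈ uIcc q x, Dd e l s ≠ 0) : 0 < mm e q l x := by
  have hc : ContinuousOn (fun t : ℝ => min 1 |Dd e l (q + t * (x - q))|) (Icc 0 1) := by
    have := Dd_cont e l hl
    fun_prop
  obtain ⟨t, ht, hmin⟩ := isCompact_Icc.exists_isMinOn (nonempty_Icc.mpr zero_le_one) hc
  have h1 : 0 < min 1 |Dd e l (q + t * (x - q))| :=
    lt_min one_pos (abs_pos.mpr (h _ (seg_mem q x t ht)))
  refine lt_of_lt_of_le h1 (le_csInf (img_ne e q l x) ?_)
  rintro _ ⟨t', ht', rfl⟩
  exact hmin ht'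

lemma mm_lip (e : RExp (Fin 3)) (l l' : ℝ → ℝ) (hl : ∀ x, |l x| ≤ 1) (hl' : ∀ x, |l' x| ≤ 1) (δ : ℝ) (hδ : 0 ≤ δ)
    (hd : ∀ x, |l x - l' x| ≤ δ) (q x : ℝ) : mm e q l' x ≤ mm e q l x + MM e q x * δ := by
  have : mm e q l' x - MM e q x * δ ≤ mm e q l x := by
    apply le_csInf (img_ne e q l x)
    rintro _ ⟨t, ht, rfl⟩
    have hs := seg_mem q x t ht
    have h1 := mm_le e q l' x _ hs
    obtain ⟨-, -, -, h2⟩ := nd_bounds e l l' hl hl' δ hδ hd q x _ hs
    have hM : 0 ≤ MM e q x * δ := mul_nonneg (by linarith [MM_ge e q x]) hδ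
    simp only
    have h3 : |Dd e l' (q + t * (x - q))| ≤ |Dd e l (q + t * (x - q))| + MM e q x * δ := by
      have := abs_sub_abs_le_abs_sub (Dd e l' (q + t * (x - q))) (Dd e l (q + t * (x - q)))
      rw [abs_sub_comm] at this
      linarith
    rw [le_min_iff] at h1 ⊢
    constructor <;> linarith [h1.1, h1.2]
  linarith

lemma gg_abs (b : Bool) (F : ℝ) : |gg b F| ≤ 1 := by
  unfold gg
  have h : 0 < 1 + F^2 := by positivity
  cases b
  · simp only [Bool.false_eq_true, if_false]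
    rw [abs_div, abs_one, abs_of_pos h, div_le_one h]
    nlinarith
  · simp only [if_true]
    rw [abs_div, abs_of_pos h, div_le_one h]
    rw [abs_le]; constructor <;> nlinarith [sq_nonneg (F-1), sq_nonneg (F+1)]

lemma gg_lip (b : Bool) (F F' : ℝ) : |gg b F - gg b F'| ≤ |F - F'| := by
  unfold gg
  have h : 0 < 1 + F^2 := by positivity
  have h' : 0 < 1 + F'^2 := by positivity
  cases b
  · simp only [Bool.false_eq_true, if_false]
    have e1 : 1 / (1 + F^2) - 1 / (1 + F'^2) = (F - F') * (-(F + F') / ((1 + F^2) * (1 + F'^2))) := by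
      field_simp; ring
    rw [e1, abs_mul]
    have e2 : |-(F + F') / ((1 + F^2) * (1 + F'^2))| ≤ 1 := by
      rw [abs_div, abs_of_pos (mul_pos h h'), div_le_one (mul_pos h h'), abs_le]
      constructor <;> nlinarith [sq_nonneg (F-1), sq_nonneg (F+1), sq_nonneg (F'-1), sq_nonneg (F'+1), mul_nonneg (sq_nonneg F) (sq_nonneg F')]
    calc |F - F'| * _ ≤ |F - F'| * 1 := mul_le_mul_of_nonneg_left e2 (abs_nonneg _)
      _ = _ := mul_one _
  · simp only [if_true]
    have e1 : F / (1 + F^2) - F' / (1 + F'^2) = (F - F') * ((1 - F * F') / ((1 + F^2) * (1 + F'^2))) := by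
      field_simp; ring
    rw [e1, abs_mul]
    have e2 : |(1 - F * F') / ((1 + F^2) * (1 + F'^2))| ≤ 1 := by
      rw [abs_div, abs_of_pos (mul_pos h h'), div_le_one (mul_pos h h'), abs_le]
      constructor <;> nlinarith [sq_nonneg (F-F'), sq_nonneg (F+F'), sq_nonneg F, sq_nonneg F', mul_nonneg (sq_nonneg F) (sq_nonneg F')]
    calc |F - F'| * _ ≤ |F - F'| * 1 := mul_le_mul_of_nonneg_left e2 (abs_nonneg _)
      _ = _ := mul_one _

lemma gg_cont (b : Bool) : Continuous (gg b) := by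
  unfold gg
  cases b
  · simp only [Bool.false_eq_true, if_false]
    exact continuous_const.div (by fun_prop) (fun x => by positivity)
  · simp only [if_true]
    exact continuous_id.div (by fun_prop) (fun x => by positivity)

lemma Phi_abs (e : RExp (Fin 3)) (q : ℝ) (b : Bool) (l : ℝ → ℝ) (x : ℝ) :
    |Phi e q b l x| ≤ WW e q x * mm e q l x := by
  unfold Phi
  rw [abs_mul, abs_mul, abs_of_pos (WW_pos e q x), abs_of_nonneg (sq_nonneg _)]
  have h1 := gg_abs b (FF e q l x)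
  have h2 := mm_nonneg e q l x
  have h3 := mm_le_one e q l x
  have h4 := WW_pos e q x
  have h5 : (mm e q l x)^2 ≤ mm e q l x := by nlinarith
  calc WW e q x * mm e q l x ^ 2 * |gg b (FF e q l x)| ≤ WW e q x * mm e q l x ^ 2 * 1 :=
        mul_le_mul_of_nonneg_left h1 (by positivity)
    _ ≤ WW e q x * mm e q l x := by
        rw [mul_one]; exact mul_le_mul_of_nonneg_left h5 h4.le

lemma Phi_le (e : RExp (Fin 3)) (q : ℝ) (b : Bool) (l : ℝ → ℝ) (x : ℝ) :
    |Phi e q b l x| ≤ alpha x * (1 - alpha x) := by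
  refine (Phi_abs e q b l x).trans ?_
  have h4 := WW_pos e q x
  have h3 := mm_le_one e q l x
  have := WW_le e q x
  nlinarith

lemma intg (e : RExp (Fin 3)) (q : ℝ) (l : ℝ → ℝ) (hl : Continuous l) (x : ℝ)
    (h : ∀ s ∈ uIcc q x, Dd e l s ≠ 0) : IntervalIntegrable (fun s => Nn e l s / Dd e l s) volume q x :=
  ((Nn_cont e l hl).continuousOn.div (Dd_cont e l hl).continuousOn h).intervalIntegrable

lemma FF_deriv (e : RExp (Fin 3)) (q : ℝ) (l : ℝ → ℝ) (hl : Continuous l) (x : ℝ)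
    (h : ∀ s ∈ uIcc q x, Dd e l s ≠ 0) : HasDerivAt (FF e q l) (Nn e l x / Dd e l x) x := by
  have hm : Measurable (fun s => Nn e l s / Dd e l s) :=
    (Nn_cont e l hl).measurable.div (Dd_cont e l hl).measurable
  exact intervalIntegral.integral_hasDerivAt_right (intg e q l hl x h)
    (hm.stronglyMeasurable.stronglyMeasurableAtFilter)
    ((Nn_cont e l hl).continuousAt.div (Dd_cont e l hl).continuousAt (h x right_mem_uIcc))

lemma D_ne_of_mm_pos (e : RExp (Fin 3)) (q : ℝ) (l : ℝ → ℝ) (x : ℝ) (h : 0 < mm e q l x) :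
    ∀ s ∈ uIcc q x, Dd e l s ≠ 0 := by
  intro s hs h0
  have := mm_le_D e q l x s hs
  rw [h0, abs_zero] at this
  linarith

lemma WW_cont (e : RExp (Fin 3)) (q : ℝ) : Continuous (WW e q) := by
  have h1 : Continuous (XX q) := by unfold XX; fun_prop
  have h2 : Continuous (MM e q) := by unfold MM; exact continuous_const.mul (h1.pow _)
  have h3 := alpha_cont
  unfold WW
  refine Continuous.div (by fun_prop) (by fun_prop) (fun x => ?_)
  have := MM_ge e q x
  have := XX_ge q x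
  positivity

lemma Phi_cont (e : RExp (Fin 3)) (q : ℝ) (b : Bool) (l : ℝ → ℝ) (hl : Continuous l) :
    Continuous (Phi e q b l) := by
  rw [continuous_iff_continuousAt]
  intro x
  rcases (mm_nonneg e q l x).lt_or_eq with h | h
  · have hD := D_ne_of_mm_pos e q l x h
    have h1 : ContinuousAt (FF e q l) x := (FF_deriv e q l hl x hD).continuousAt
    unfold Phi
    exact ((WW_cont e q).continuousAt.mul ((mm_cont e q l hl).continuousAt.pow 2)).mul
      ((gg_cont b).continuousAt.comp h1)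
  · have h0 : Phi e q b l x = 0 := by unfold Phi; rw [← h]; simp
    rw [ContinuousAt, h0]
    apply squeeze_zero_norm (a := fun y => WW e q y * mm e q l y) (fun y => Phi_abs e q b l y)
    have hc : Continuous (fun y => WW e q y * mm e q l y) := (WW_cont e q).mul (mm_cont e q l hl)
    have := hc.tendsto x
    rw [← h, mul_zero] at this
    exact this

/-- the asymmetric Lipschitz estimate -/
lemma Phi_lip_aux (e : RExp (Fin 3)) (q : ℝ) (b : Bool) (l l' : ℝ → ℝ) (hlc : Continuous l) (hlc' : Continuous l')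
    (hl : ∀ x, |l x| ≤ 1) (hl' : ∀ x, |l' x| ≤ 1) (δ : ℝ) (hδ : 0 ≤ δ)
    (hd : ∀ x, |l x - l' x| ≤ δ) (x : ℝ) (hm : mm e q l x ≤ mm e q l' x) :
    |Phi e q b l x - Phi e q b l' x| ≤ δ / 2 := by
  have hM := MM_ge e q x
  have hX := XX_ge q x
  have hW := WW_pos e q x
  have hWM := WW_mul e q x
  have ha1 := alpha_pos x
  have ha2 := alpha_lt x
  have hlip := mm_lip e l l' hl hl' δ hδ hd q x
  have hm0 := mm_nonneg e q l x
  have hm1 := mm_le_one e q l' x
  set M := MM e q x with hMdef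
  set W := WW e q x with hWdef
  set X := XX q x with hXdef
  set m := mm e q l x with hmdef
  set m' := mm e q l' x with hm'def
  have hWMX : W * M^2 * X ≤ 1/8 := by nlinarith [mul_pos ha1 (by linarith : 0 < 1 - alpha x)]
  have hMM : M ≤ M^2 := by nlinarith
  rcases hm0.lt_or_eq with hpos | hzero
  · have hpos' : 0 < m' := lt_of_lt_of_le hpos hm
    have hD := D_ne_of_mm_pos e q l x hpos
    have hD' := D_ne_of_mm_pos e q l' x hpos'
    have hF : |FF e q l x - FF e q l' x| ≤ (2 * M^2 * δ / (m * m')) * |x - q| := by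
      unfold FF
      rw [← intervalIntegral.integral_sub (intg e q l hlc x hD) (intg e q l' hlc' x hD')]
      rw [← Real.norm_eq_abs]
      apply intervalIntegral.norm_integral_le_of_norm_le_const
      intro s hs
      have hs' : s ∈ uIcc q x := uIoc_subset_uIcc hs
      obtain ⟨b1, b2, b3, b4⟩ := nd_bounds e l l' hl hl' δ hδ hd q x s hs'
      obtain ⟨c1, c2, -, -⟩ := nd_bounds e l' l hl' hl δ hδ (fun x => by rw [abs_sub_comm]; exact hd x) q x s hs'
      have d1 := mm_le_D e q l x s hs'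
      have d2 := mm_le_D e q l' x s hs'
      have n1 := hD s hs'
      have n2 := hD' s hs'
      rw [Real.norm_eq_abs]
      have e1 : Nn e l s / Dd e l s - Nn e l' s / Dd e l' s =
          ((Nn e l s - Nn e l' s) * Dd e l' s - Nn e l' s * (Dd e l s - Dd e l' s)) / (Dd e l s * Dd e l' s) := by
        field_simp; ring
      rw [e1, abs_div]
      apply div_le_div₀ (by positivity) _ (by positivity) _
      · calc |(Nn e l s - Nn e l' s) * Dd e l' s - Nn e l' s * (Dd e l s - Dd e l' s)|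
            ≤ |(Nn e l s - Nn e l' s) * Dd e l' s| + |Nn e l' s * (Dd e l s - Dd e l' s)| := abs_sub _ _
          _ = |Nn e l s - Nn e l' s| * |Dd e l' s| + |Nn e l' s| * |Dd e l s - Dd e l' s| := by rw [abs_mul, abs_mul]
          _ ≤ (M * δ) * M + M * (M * δ) := add_le_add (mul_le_mul b3 c2 (abs_nonneg _) (by positivity))
              (mul_le_mul c1 b4 (abs_nonneg _) (by positivity))
          _ = 2 * M^2 * δ := by ring
      · rw [abs_mul]
        exact mul_le_mul d1 d2 hpos'.le (abs_nonneg _)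
    have hxq : |x - q| ≤ X - 2 := by
      rw [hXdef]; unfold XX
      calc |x - q| ≤ |x| + |q| := abs_sub _ _
        _ = _ := by ring
    have hgl := gg_lip b (FF e q l x) (FF e q l' x)
    have hg1 := gg_abs b (FF e q l' x)
    have e2 : Phi e q b l x - Phi e q b l' x =
        W * m^2 * (gg b (FF e q l x) - gg b (FF e q l' x)) + W * (m^2 - m'^2) * gg b (FF e q l' x) := by
      unfold Phi; rw [← hWdef, ← hmdef, ← hm'def]; ring
    rw [e2]
    have t1 : |W * m^2 * (gg b (FF e q l x) - gg b (FF e q l' x))| ≤ W * (2 * M^2 * δ * (X - 2)) := by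
      rw [abs_mul, abs_of_nonneg (by positivity : 0 ≤ W * m^2)]
      have s1 : |gg b (FF e q l x) - gg b (FF e q l' x)| ≤ (2 * M^2 * δ / (m * m')) * (X - 2) :=
        hgl.trans (hF.trans (mul_le_mul_of_nonneg_left hxq (by positivity)))
      calc W * m^2 * |gg b (FF e q l x) - gg b (FF e q l' x)| ≤ W * m^2 * ((2 * M^2 * δ / (m * m')) * (X - 2)) :=
            mul_le_mul_of_nonneg_left s1 (by positivity)
        _ = W * (2 * M^2 * δ * (X - 2)) * (m / m') := by field_simp
        _ ≤ W * (2 * M^2 * δ * (X - 2)) * 1 := by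
            apply mul_le_mul_of_nonneg_left ((div_le_one hpos').mpr hm)
            have : 0 ≤ X - 2 := by linarith
            positivity
        _ = _ := mul_one _
    have t2 : |W * (m^2 - m'^2) * gg b (FF e q l' x)| ≤ W * (2 * (M * δ)) := by
      rw [abs_mul, abs_mul, abs_of_pos hW]
      have s1 : |m^2 - m'^2| ≤ 2 * (M * δ) := by
        rw [abs_sub_comm, abs_of_nonneg (by nlinarith)]
        have : m'^2 - m^2 = (m' - m) * (m' + m) := by ring
        rw [this]
        have hA : 0 ≤ m' - m := by linarith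
        have hB : m' + m ≤ 2 := by linarith
        have hC : m' - m ≤ M * δ := by linarith
        nlinarith
      calc W * |m^2 - m'^2| * |gg b (FF e q l' x)| ≤ W * |m^2 - m'^2| * 1 :=
            mul_le_mul_of_nonneg_left hg1 (by positivity)
        _ ≤ W * (2 * (M * δ)) := by rw [mul_one]; exact mul_le_mul_of_nonneg_left s1 hW.le
    have t3 : W * (2 * (M * δ)) ≤ W * (2 * (M^2 * δ)) := by gcongr
    calc _ ≤ _ := abs_add_le _ _
      _ ≤ W * (2 * M^2 * δ * (X - 2)) + W * (2 * (M^2 * δ)) := by linarith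
      _ ≤ 2 * (W * M^2 * X) * δ := by
          have : 0 ≤ W * M^2 * δ := by positivity
          nlinarith
      _ ≤ 2 * (1/8) * δ := by gcongr
      _ ≤ δ / 2 := by linarith
  · have h0 : Phi e q b l x = 0 := by unfold Phi; rw [← hmdef, ← hzero]; simp
    rw [h0, zero_sub, abs_neg]
    have h1 := Phi_abs e q b l' x
    rw [← hWdef, ← hm'def] at h1
    have h2 : m' ≤ M * δ := by linarith
    calc |Phi e q b l' x| ≤ W * m' := h1
      _ ≤ W * (M^2 * δ) := by
          apply mul_le_mul_of_nonneg_left _ hW.le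
          exact h2.trans (mul_le_mul_of_nonneg_right hMM hδ)
      _ ≤ (W * M^2 * X) * δ := by
          have : 0 ≤ W * M^2 * δ := by positivity
          nlinarith
      _ ≤ (1/8) * δ := by gcongr
      _ ≤ δ / 2 := by linarith

lemma Phi_lip (e : RExp (Fin 3)) (q : ℝ) (b : Bool) (l l' : ℝ → ℝ) (hlc : Continuous l) (hlc' : Continuous l')
    (hl : ∀ x, |l x| ≤ 1) (hl' : ∀ x, |l' x| ≤ 1) (δ : ℝ) (hδ : 0 ≤ δ)
    (hd : ∀ x, |l x - l' x| ≤ δ) (x : ℝ) :
    |Phi e q b l x - Phi e q b l' x| ≤ δ / 2 := by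
  rcases le_total (mm e q l x) (mm e q l' x) with h | h
  · exact Phi_lip_aux e q b l l' hlc hlc' hl hl' δ hδ hd x h
  · rw [abs_sub_comm]
    exact Phi_lip_aux e q b l' l hlc' hlc hl' hl δ hδ (fun x => by rw [abs_sub_comm]; exact hd x) x h


/-! ### the fixed point -/

/-- requirements: a rational combination, a rational base point, and numerator/denominator -/
abbrev Req : Type := RExp (Fin 3) × ℚ × Bool

noncomputable def code : Req → ℕ := (Countable.exists_injective_nat Req).choose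
lemma code_inj : Function.Injective code := (Countable.exists_injective_nat Req).choose_spec

noncomputable def phi (j : ℕ) (l : ℝ → ℝ) (x : ℝ) : ℝ :=
  match Function.partialInv code j with
  | none => 0
  | some r => Phi r.1 (r.2.1 : ℝ) r.2.2 l x

lemma phi_code (r : Req) (l : ℝ → ℝ) (x : ℝ) : phi (code r) l x = Phi r.1 (r.2.1 : ℝ) r.2.2 l x := by
  unfold phi
  rw [Function.partialInv_left code_inj]

lemma phi_cont (j : ℕ) (l : ℝ → ℝ) (hl : Continuous l) : Continuous (phi j l) := by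
  unfold phi
  cases Function.partialInv code j with
  | none => exact continuous_const
  | some r => exact Phi_cont _ _ _ _ hl

lemma phi_le (j : ℕ) (l : ℝ → ℝ) (x : ℝ) : |phi j l x| ≤ alpha x * (1 - alpha x) := by
  unfold phi
  cases Function.partialInv code j with
  | none =>
    simp only [abs_zero]
    exact mul_nonneg (alpha_pos x).le (by linarith [alpha_lt x])
  | some r => exact Phi_le _ _ _ _ _

lemma phi_lip (j : ℕ) (l l' : ℝ → ℝ) (hlc : Continuous l) (hlc' : Continuous l')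
    (hl : ∀ x, |l x| ≤ 1) (hl' : ∀ x, |l' x| ≤ 1) (δ : ℝ) (hδ : 0 ≤ δ)
    (hd : ∀ x, |l x - l' x| ≤ δ) (x : ℝ) : |phi j l x - phi j l' x| ≤ δ / 2 := by
  unfold phi
  cases Function.partialInv code j with
  | none => simp only [sub_self, abs_zero]; linarith
  | some r => exact Phi_lip _ _ _ _ _ hlc hlc' hl hl' δ hδ hd x

noncomputable def Psi (l : ℝ → ℝ) (x : ℝ) : ℝ :=
  if 0 ≤ x ∧ 0 < Int.fract x then phi ⌊x⌋₊ l (beta (Int.fract x)) else 0

lemma Psi_le (l : ℝ → ℝ) (x : ℝ) : |Psi l x| ≤ Int.fract x * (1 - Int.fract x) := by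
  unfold Psi
  have h1 := Int.fract_nonneg x
  have h2 := Int.fract_lt_one x
  split_ifs with h
  · have := phi_le ⌊x⌋₊ l (beta (Int.fract x))
    rwa [alpha_beta _ h.2 h2] at this
  · rw [abs_zero]
    exact mul_nonneg h1 (by linarith)

lemma Psi_le_one (l : ℝ → ℝ) (x : ℝ) : |Psi l x| ≤ 1 := by
  refine (Psi_le l x).trans ?_
  have h1 := Int.fract_nonneg x
  have h2 := Int.fract_lt_one x
  nlinarith

lemma Psi_at (l : ℝ → ℝ) (j : ℕ) (y : ℝ) : Psi l (alpha y + j) = phi j l y := by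
  have h1 := alpha_pos y
  have h2 := alpha_lt y
  have hf : Int.fract (alpha y + (j:ℝ)) = alpha y := by
    rw [Int.fract_add_natCast, Int.fract_eq_self]
    exact ⟨h1.le, h2⟩
  have hfl : ⌊alpha y + (j:ℝ)⌋₊ = j := by
    rw [Nat.floor_add_natCast h1.le, Nat.floor_eq_zero.mpr h2, zero_add]
  unfold Psi
  rw [hf, hfl, beta_alpha, if_pos]
  refine ⟨by positivity, h1⟩

lemma Psi_cont (l : ℝ → ℝ) (hl : Continuous l) : Continuous (Psi l) := by
  rw [continuous_iff_continuousAt]
  intro x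
  by_cases hx : Int.fract x = 0
  · -- integer point
    have h0 : Psi l x = 0 := by
      unfold Psi; rw [if_neg]; rintro ⟨-, h⟩; exact absurd hx h.ne'
    rw [ContinuousAt, h0]
    have hxi : x = (⌊x⌋ : ℝ) := by
      have := Int.floor_add_fract x
      rw [hx, add_zero] at this; exact this.symm
    apply squeeze_zero_norm (a := fun y => |y - x|)
    · intro y
      rw [Real.norm_eq_abs]
      refine (Psi_le l y).trans ?_
      have h1 := Int.fract_nonneg y
      have h2 := Int.fract_lt_one y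
      have hfy : Int.fract y = y - ⌊y⌋ := rfl
      rcases le_or_gt x y with hxy | hxy
      · -- ⌊y⌋ ≥ ⌊x⌋
        have h3 : (⌊x⌋ : ℤ) ≤ ⌊y⌋ := Int.floor_le_floor hxy
        have h3' : (⌊x⌋ : ℝ) ≤ ⌊y⌋ := by exact_mod_cast h3
        rw [abs_of_nonneg (by linarith)]
        have : Int.fract y ≤ y - x := by rw [hfy, hxi]; linarith
        nlinarith
      · have h3 : ⌊y⌋ < ⌊x⌋ := by
          rw [Int.floor_lt]; linarith
        have h3' : (⌊y⌋ : ℝ) + 1 ≤ ⌊x⌋ := by exact_mod_cast h3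
        rw [abs_of_neg (by linarith)]
        have : 1 - Int.fract y ≤ x - y := by rw [hfy]; linarith
        nlinarith
    · have : Continuous fun y : ℝ => |y - x| := by fun_prop
      have := this.tendsto x
      simpa using this
  · have hf0 : 0 < Int.fract x := lt_of_le_of_ne (Int.fract_nonneg x) (Ne.symm hx)
    have hf1 := Int.fract_lt_one x
    have hnhds : Ioo (⌊x⌋ : ℝ) (⌊x⌋ + 1) ∈ 𝓝 x := by
      apply Ioo_mem_nhds
      · have := Int.floor_add_fract x; linarith
      · exact Int.lt_floor_add_one x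
    have hloc : ∀ y ∈ Ioo (⌊x⌋ : ℝ) (⌊x⌋ + 1), ⌊y⌋ = ⌊x⌋ := by
      intro y hy
      rw [Int.floor_eq_iff]
      exact ⟨hy.1.le, hy.2⟩
    rcases lt_or_ge x 0 with hneg | hpos
    · have : Psi l =ᶠ[𝓝 x] fun _ => 0 := by
        filter_upwards [hnhds] with y hy
        have h1 := hloc y hy
        have h2 : ⌊x⌋ < 0 := Int.floor_lt.mpr (by exact_mod_cast hneg)
        have h3 : y < 0 := by
          have : ⌊y⌋ < 0 := by rw [h1]; exact h2
          exact_mod_cast Int.floor_lt.mp this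
        unfold Psi
        rw [if_neg]
        rintro ⟨h, -⟩
        linarith
      exact continuousAt_const.congr this.symm
    · have : Psi l =ᶠ[𝓝 x] fun y => phi ⌊x⌋₊ l (beta (y - ⌊x⌋)) := by
        filter_upwards [hnhds] with y hy
        have h1 := hloc y hy
        have hx0 : 0 ≤ ⌊x⌋ := Int.floor_nonneg.mpr hpos
        have hx0' : (0:ℝ) ≤ ⌊x⌋ := by exact_mod_cast hx0
        have hfl : ⌊y⌋₊ = ⌊x⌋₊ := by
          rw [← Int.floor_toNat, ← Int.floor_toNat, h1]
        have hfr : Int.fract y = y - ⌊x⌋ := by rw [Int.fract, h1]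
        unfold Psi
        rw [hfr, hfl, if_pos]
        exact ⟨by linarith [hy.1], by linarith [hy.1]⟩
      refine ContinuousAt.congr ?_ this.symm
      have hb : ContinuousAt (fun y : ℝ => beta (y - ⌊x⌋)) x := by
        refine ContinuousAt.comp (f := fun y : ℝ => y - ⌊x⌋) (g := beta) ?_ (by fun_prop)
        exact beta_contAt (x - ⌊x⌋) hf0 hf1
      exact (phi_cont _ l hl).continuousAt.comp hb

lemma Psi_lip (l l' : ℝ → ℝ) (hlc : Continuous l) (hlc' : Continuous l')
    (hl : ∀ x, |l x| ≤ 1) (hl' : ∀ x, |l' x| ≤ 1) (δ : ℝ) (hδ : 0 ≤ δ)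
    (hd : ∀ x, |l x - l' x| ≤ δ) (x : ℝ) : |Psi l x - Psi l' x| ≤ δ / 2 := by
  unfold Psi
  split_ifs
  · exact phi_lip _ l l' hlc hlc' hl hl' δ hδ hd _
  · simp only [sub_self, abs_zero]; linarith

noncomputable def clip (x : ℝ) : ℝ := max (-1) (min x 1)

lemma clip_abs (x : ℝ) : |clip x| ≤ 1 := by
  unfold clip
  rw [abs_le]
  exact ⟨le_max_left _ _, max_le (by norm_num) (min_le_right _ _)⟩

lemma clip_lip (x y : ℝ) : |clip x - clip y| ≤ |x - y| := by
  unfold clip
  calc |max (-1) (min x 1) - max (-1) (min y 1)| ≤ max |(-1) - (-1)| |min x 1 - min y 1| := abs_max_sub_max_le_max _ _ _ _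
    _ ≤ |x - y| := by
      apply max_le
      · simp
      · calc |min x 1 - min y 1| ≤ max |x - y| |1 - 1| := abs_min_sub_min_le_max _ _ _ _
          _ ≤ |x - y| := by simp

lemma clip_eq (x : ℝ) (h : |x| ≤ 1) : clip x = x := by
  unfold clip
  rw [min_eq_left (abs_le.mp h).2, max_eq_right (abs_le.mp h).1]

lemma clip_cont : Continuous clip := by unfold clip; fun_prop

open scoped BoundedContinuousFunction

noncomputable def T (L : ℝ →ᵇ ℝ) : ℝ →ᵇ ℝ :=
  BoundedContinuousFunction.ofNormedAddCommGroup (Psi (fun x => clip (L x)))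
    (Psi_cont _ (clip_cont.comp L.continuous)) 1 (fun x => Psi_le_one _ x)

lemma T_contracting : ContractingWith (1/2) T := by
  refine ⟨by norm_num, LipschitzWith.of_dist_le_mul fun L L' => ?_⟩
  rw [BoundedContinuousFunction.dist_le (by positivity)]
  intro x
  rw [Real.dist_eq]
  have h := Psi_lip (fun x => clip (L x)) (fun x => clip (L' x)) (clip_cont.comp L.continuous)
    (clip_cont.comp L'.continuous) (fun x => clip_abs _) (fun x => clip_abs _) (dist L L') dist_nonneg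
    (fun x => (clip_lip _ _).trans (by rw [← Real.dist_eq]; exact BoundedContinuousFunction.dist_coe_le_dist x)) x
  calc |(T L) x - (T L') x| ≤ dist L L' / 2 := h
    _ = _ := by simp; ring

theorem exists_L : ∃ L : ℝ → ℝ, Continuous L ∧ ∀ (r : Req) (y : ℝ),
    L (alpha y + code r) = Phi r.1 (r.2.1 : ℝ) r.2.2 L y := by
  obtain ⟨L, hL⟩ : ∃ L : ℝ →ᵇ ℝ, T L = L := ⟨_, T_contracting.fixedPoint_isFixedPt⟩
  have hval : ∀ x, L x = Psi (fun x => clip (L x)) x := fun x => by
    conv_lhs => rw [← hL]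
    rfl
  have hclip : (fun x => clip (L x)) = L := by
    ext x
    apply clip_eq
    rw [hval x]
    exact Psi_le_one _ x
  refine ⟨L, L.continuous, fun r y => ?_⟩
  rw [hval, hclip, Psi_at, phi_code]

/-! ### the three functions -/

noncomputable def fam (L : ℝ → ℝ) : Fin 3 → ℝ → ℝ := ![alpha, fun x => x + 1, L]

lemma fam_V (L : ℝ → ℝ) (x : ℝ) : (fun i => fam L i x) = V L x := by
  ext i; fin_cases i <;> rfl

/-- the word `L ∘ σ^j ∘ α` -/
def word (j : ℕ) : List (Fin 3) := 2 :: (List.replicate j 1 ++ [0])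

lemma comp_word (L : ℝ → ℝ) (j : ℕ) (x : ℝ) : comp (fam L) (word j) x = L (alpha x + j) := by
  have h : ∀ j : ℕ, comp (fam L) (List.replicate j 1 ++ [0]) x = alpha x + j := by
    intro j
    induction j with
    | zero => simp [comp, fam]
    | succ j ih =>
      rw [List.replicate_succ, List.cons_append]
      show fam L 1 (comp (fam L) (List.replicate j 1 ++ [0]) x) = _
      rw [ih]
      show alpha x + j + 1 = _
      push_cast; ring
  show fam L 2 (comp (fam L) (List.replicate j 1 ++ [0]) x) = _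
  rw [h]
  rfl

/-- **MP_75b936_an, Q1: the answer is no.**  There are three continuous functions
`f₁, f₂, f₃ : ℝ → ℝ`, not all identically zero, such that every rational combination `R` of them has,
on every open interval `I` on which it is defined, an indefinite integral which agrees on `I` with a
rational combination of superpositions of `f₁, f₂, f₃` (defined on `I`). -/
theorem result : ∃ f : Fin 3 → ℝ → ℝ, (∀ i, Continuous (f i)) ∧ (∃ i x, f i x ≠ 0) ∧
    ∀ (R : RExp (Fin 3)) (I : Set ℝ), IsOpen I → I.OrdConnected → I.Nonempty →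
      (∀ x ∈ I, R.Defined f x) →
      ∃ S : RExp (Word 3), ∀ x ∈ I, S.Defined (fun w => comp f w.1) x ∧
        HasDerivAt (S.eval (fun w => comp f w.1)) (R.eval f x) x := by
  obtain ⟨L, hLc, hL⟩ := exists_L
  refine ⟨fam L, ?_, ⟨1, 0, by simp [fam]⟩, ?_⟩
  · intro i
    fin_cases i
    · exact alpha_cont
    · exact continuous_id.add continuous_const
    · exact hLc
  intro R I hI hIc hIne hdef
  obtain ⟨q, hq⟩ : ∃ q : ℚ, (q : ℝ) ∈ I := by
    obtain ⟨x, hx, ⟨q, rfl⟩⟩ := (Rat.isDenseEmbedding_coe_real.dense).inter_open_nonempty I hI hIne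
    exact ⟨q, hx⟩
  set w1 : Word 3 := ⟨word (code (R, q, true)), by simp [word]⟩ with hw1
  set w2 : Word 3 := ⟨word (code (R, q, false)), by simp [word]⟩ with hw2
  have hD : ∀ x ∈ I, ∀ s ∈ uIcc (q:ℝ) x, Dd R L s ≠ 0 := by
    intro x hx s hs
    have hsI : s ∈ I := hIc.uIcc_subset hq hx hs
    have := (nd_spec (fam L) s R).1.mpr (hdef s hsI)
    rwa [fam_V] at this
  have hS : ∀ x ∈ I, comp (fam L) w2.1 x ≠ 0 ∧ comp (fam L) w1.1 x / comp (fam L) w2.1 x = FF R q L x := by
    intro x hx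
    have hm := mm_pos R q L hLc x (hD x hx)
    have hW := WW_pos R q x
    have h1 : comp (fam L) w1.1 x = WW R q x * (mm R q L x)^2 * (FF R q L x / (1 + (FF R q L x)^2)) := by
      rw [hw1, comp_word, hL]; simp [Phi, gg]
    have h2 : comp (fam L) w2.1 x = WW R q x * (mm R q L x)^2 * (1 / (1 + (FF R q L x)^2)) := by
      rw [hw2, comp_word, hL]; simp [Phi, gg]
    have h3 : 0 < 1 + (FF R q L x)^2 := by positivity
    constructor
    · rw [h2]; positivity
    · rw [h1, h2]; field_simp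
  refine ⟨RExp.div (RExp.gen w1) (RExp.gen w2), fun x hx => ⟨⟨trivial, trivial, (hS x hx).1⟩, ?_⟩⟩
  have hev : R.eval (fam L) x = Nn R L x / Dd R L x := by
    have := (nd_spec (fam L) x R).2 (hdef x hx)
    rw [fam_V] at this
    exact this
  rw [hev]
  refine (FF_deriv R q L hLc x (hD x hx)).congr_of_eventuallyEq ?_
  filter_upwards [hI.mem_nhds hx] with y hy
  exact (hS y hy).2

end Pool.Agent.Results.MP_75b936_an.FormalIntegration
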